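import Pool.Agent.H26.IrrDefs
import Pool.Agent.H26.IrrMain
import Pool.Agent.H26.IrrTop
import Pool.Agent.H26.IrrIrr

set_option autoImplicit false

namespace Pool.Agent.Results.MP_89b417_ag.NonIsotrivial

open Pool.Agent.H26.Irr

/-- The polynomial `p = u² + (1 - x(1-y))² (1 - yz)³` in four complex variables is irreducible, its
zero set is contractible, the fibres over any two different nonzero values are not isomorphic, and
`p` is not isotrivial. -/
theorem result :
    ∃ p : MvPolynomial (Fin 4) ℂ,
      p = MvPolynomial.X 0 ^ 2 +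
        (1 - MvPolynomial.X 1 * (1 - MvPolynomial.X 2)) ^ 2 *
          (1 - MvPolynomial.X 2 * MvPolynomial.X 3) ^ 3 ∧
      Irreducible p ∧
      ContractibleSpace {x : Fin 4 → ℂ // MvPolynomial.eval x p = 0} ∧
      (∀ c d : ℂ, c ≠ 0 → d ≠ 0 → c ≠ d → ¬ FibresIso p c d) ∧
      ¬ Isotrivial p :=
  ⟨pp, rfl, irreducible_pp, contractible, fun _ _ hc hd hcd h => hcd (fibres_noniso hc hd h),
    not_isotrivial⟩

end Pool.Agent.Results.MP_89b417_ag.NonIsotrivial
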